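import Pool.Agent.Lib.MP_edb5be_nt.PD.Iface

/-!
Project PD (MP_edb5be_nt), module TAIL: the sum of a word.
-/

set_option autoImplicit false

namespace Pool.Agent.Lib.MP_edb5be_nt.PD.H23

open Finset Pool.Agent.Lib.MP_edb5be_nt.EX

/-- The sum over the words of length `h + 1`. -/
theorem sum_wds_succ (A h : ℕ) (F : List ℕ → ℝ) :
    ∑ u ∈ wds A (h + 1), F u = ∑ a ∈ Icc 1 A, ∑ v ∈ wds A h, F (a :: v) := by
  have hd : wds A (h + 1) = (Icc 1 A).biUnion fun a => (wds A h).image (List.cons a) := rfl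
  rw [hd, sum_biUnion]
  · apply sum_congr rfl
    intro a _
    rw [sum_image]
    intro v _ w _ hvw
    exact List.cons_injective hvw
  · intro a _ b _ hab
    rw [Function.onFun, disjoint_left]
    intro u hu hu'
    obtain ⟨v, _, rfl⟩ := mem_image.1 hu
    obtain ⟨w, _, hw⟩ := mem_image.1 hu'
    exact hab (List.cons.inj hw).1.symm

/-- The generating function of the sums. -/
theorem sum_pow (A h : ℕ) (x : ℝ) :
    ∑ u ∈ wds A h, x ^ u.sum = (∑ a ∈ Icc 1 A, x ^ a) ^ h := by
  induction h with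
  | zero => simp [wds]
  | succ h ih =>
    rw [sum_wds_succ, pow_succ, ← ih, mul_comm, sum_mul]
    apply sum_congr rfl
    intro a _
    rw [mul_sum]
    apply sum_congr rfl
    intro v _
    rw [List.sum_cons, pow_add]

/-- The geometric sum. -/
theorem geo (A : ℕ) (x : ℝ) :
    (1 - x) * ∑ a ∈ Icc 1 A, x ^ a = x * (1 - x ^ A) := by
  induction A with
  | zero => simp
  | succ A ih =>
    rw [sum_Icc_succ_top (by omega), mul_add, ih]
    ring

theorem geo_le (A : ℕ) (x : ℝ) (h0 : 0 ≤ x) (h1 : x < 1) :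
    ∑ a ∈ Icc 1 A, x ^ a ≤ x / (1 - x) := by
  rw [le_div_iff₀ (by linarith), mul_comm, geo]
  have : 0 ≤ x ^ A := pow_nonneg h0 A
  nlinarith

theorem geo_nonneg (A : ℕ) (x : ℝ) (h0 : 0 ≤ x) : 0 ≤ ∑ a ∈ Icc 1 A, x ^ a :=
  sum_nonneg fun _ _ => pow_nonneg h0 _

theorem low (A h : ℕ) :
    pr ((wds A h).filter fun u => 100 * u.sum < 199 * h) ≤ (99999 / 100000 : ℝ) ^ h := by
  obtain ⟨y, hy⟩ : ∃ y : ℝ, y = 20001 / 20000 := ⟨_, rfl⟩
  have hy1 : 1 ≤ y := by rw [hy]; norm_num
  have hy0 : 0 < y := by linarith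
  obtain ⟨x, hx⟩ : ∃ x : ℝ, x = 1 / (2 * y ^ 100) := ⟨_, rfl⟩
  have h1 : pr ((wds A h).filter fun u => 100 * u.sum < 199 * h) ≤
      ∑ u ∈ wds A h, y ^ (199 * h) * x ^ u.sum := by
    unfold pr
    refine le_trans ?_ (sum_le_sum_of_subset_of_nonneg (filter_subset (fun u : List ℕ => 100 * u.sum < 199 * h) (wds A h)) ?_)
    · apply sum_le_sum
      intro u hu
      have hu2 := (mem_filter.1 hu).2
      rw [hx, div_pow, one_pow, mul_pow, ← pow_mul, mul_one_div,
        div_le_div_iff₀ (by positivity) (by positivity), one_mul]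
      have : y ^ (100 * u.sum) ≤ y ^ (199 * h) := pow_le_pow_right₀ hy1 hu2.le
      have h2 : (0 : ℝ) < 2 ^ u.sum := by positivity
      nlinarith
    · intro u _ _
      rw [hx]
      positivity
  refine h1.trans ?_
  rw [← mul_sum, sum_pow, pow_mul, ← mul_pow]
  apply pow_le_pow_left₀
  · exact mul_nonneg (by positivity) (geo_nonneg A x (by rw [hx]; positivity))
  · have h3 : x < 1 := by
      rw [hx, div_lt_one (by positivity)]
      have : (1 : ℝ) ≤ y ^ 100 := one_le_pow₀ hy1
      linarith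
    have h4 : 0 ≤ x := by rw [hx]; positivity
    have h5 := geo_le A x h4 h3
    calc y ^ 199 * ∑ a ∈ Icc 1 A, x ^ a ≤ y ^ 199 * (x / (1 - x)) :=
          mul_le_mul_of_nonneg_left h5 (by positivity)
      _ ≤ 99999 / 100000 := by
          rw [hx, hy]
          norm_num

theorem up (A h : ℕ) :
    pr ((wds A h).filter fun u => 201 * h < 100 * u.sum) ≤ (99999 / 100000 : ℝ) ^ h := by
  obtain ⟨y, hy⟩ : ∃ y : ℝ, y = 20001 / 20000 := ⟨_, rfl⟩
  have hy1 : 1 ≤ y := by rw [hy]; norm_num
  have hy0 : 0 < y := by linarith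
  obtain ⟨x, hx⟩ : ∃ x : ℝ, x = y ^ 100 / 2 := ⟨_, rfl⟩
  have h1 : pr ((wds A h).filter fun u => 201 * h < 100 * u.sum) ≤
      ∑ u ∈ wds A h, (1 / y) ^ (201 * h) * x ^ u.sum := by
    unfold pr
    refine le_trans ?_ (sum_le_sum_of_subset_of_nonneg (filter_subset (fun u : List ℕ => 201 * h < 100 * u.sum) (wds A h)) ?_)
    · apply sum_le_sum
      intro u hu
      have hu2 := (mem_filter.1 hu).2
      rw [hx, div_pow, div_pow, one_pow, ← pow_mul, div_mul_div_comm, one_mul,
        div_le_div_iff₀ (by positivity) (by positivity), one_mul]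
      have : y ^ (201 * h) ≤ y ^ (100 * u.sum) := pow_le_pow_right₀ hy1 hu2.le
      have h2 : (0 : ℝ) < 2 ^ u.sum := by positivity
      nlinarith
    · intro u _ _
      rw [hx]
      positivity
  refine h1.trans ?_
  rw [← mul_sum, sum_pow, pow_mul, ← mul_pow]
  apply pow_le_pow_left₀
  · exact mul_nonneg (by positivity) (geo_nonneg A x (by rw [hx]; positivity))
  · have h3 : x < 1 := by
      rw [hx, hy]
      norm_num
    have h4 : 0 ≤ x := by rw [hx]; positivity
    have h5 := geo_le A x h4 h3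
    calc (1 / y) ^ 201 * ∑ a ∈ Icc 1 A, x ^ a ≤ (1 / y) ^ 201 * (x / (1 - x)) :=
          mul_le_mul_of_nonneg_left h5 (by positivity)
      _ ≤ 99999 / 100000 := by
          rw [hx, hy]
          norm_num

/-- TAIL. -/
theorem tail : TailStatement := by
  refine ⟨?_, 99999 / 100000, by norm_num, by norm_num, ?_⟩
  · intro A h
    have h1 : pr (wds A h) = ∑ u ∈ wds A h, (1 / 2 : ℝ) ^ u.sum := by
      unfold pr
      apply sum_congr rfl
      intro u _
      rw [div_pow, one_pow]
    rw [h1, sum_pow]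
    congr 1
    have h2 := geo A (1 / 2)
    rw [div_pow, one_pow] at h2
    linarith
  · intro A h
    rcases Nat.eq_zero_or_pos h with rfl | hpos
    · have : (wds A 0).filter (fun u => ¬ (199 * 0 ≤ 100 * u.sum ∧ 100 * u.sum ≤ 201 * 0)) = ∅ := by
        apply filter_eq_empty_iff.2
        intro u hu
        have hu' : u = [] := by simpa [wds] using hu
        subst hu'
        simp
      rw [this]
      simp [pr]
    · have hsub : pr ((wds A h).filter fun u =>
          ¬ (199 * h ≤ 100 * u.sum ∧ 100 * u.sum ≤ 201 * h)) ≤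
          pr ((wds A h).filter fun u => 100 * u.sum < 199 * h) +
          pr ((wds A h).filter fun u => 201 * h < 100 * u.sum) := by
        unfold pr
        rw [sum_filter, sum_filter, sum_filter, ← sum_add_distrib]
        apply sum_le_sum
        intro u _
        have hp : (0 : ℝ) ≤ 1 / 2 ^ u.sum := by positivity
        by_cases ha : 100 * u.sum < 199 * h <;> by_cases hb : 201 * h < 100 * u.sum
        · omega
        · rw [if_pos (by omega), if_pos ha, if_neg hb]; linarith
        · rw [if_pos (by omega), if_neg ha, if_pos hb]; linarith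
        · rw [if_neg (by omega), if_neg ha, if_neg hb]; linarith
      have hl := low A h
      have hu := up A h
      have hh : (1 : ℝ) ≤ h := by exact_mod_cast hpos
      have hq : (0 : ℝ) < (99999 / 100000 : ℝ) ^ h := by positivity
      nlinarith

end Pool.Agent.Lib.MP_edb5be_nt.PD.H23
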